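import Pool.Agent.Helper937.McsForce
import Pool.Agent.U19.CE.Main

/-!
# Compact spaces whose small closures are Eberlein compact: the answer is consistently negative

(1) Some notion of forcing adds no subset of `ℕ` and forces that there is a family `S` of
sequences which is not sigma-discrete although all its initial segments, hence all its subfamilies
of cardinality at most the continuum, are sigma-discrete.
(2) Such a family gives a compact Hausdorff space in which the closure of every set of cardinality
at most the continuum is Eberlein compact (it even embeds in a cube with all points of finite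
support), and which is not Eberlein compact (it is not even Corson compact).
(3) A positive answer to the question implies, in ZFC, that every subset of a Baire space `β^ℕ`
all of whose subsets of cardinality at most the continuum are sigma-discrete is sigma-discrete.
-/

set_option autoImplicit false

open Cardinal Set Topology Filter

namespace Pool.Agent.Results.MP_ba6bfd_gt.ConsistentlyNo

open Pool.Agent.Helper937.Mcs (SD NonReflecting)

/-- `X` embeds continuously and injectively as a bounded set in `c_0(Γ)` with the topology of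
pointwise convergence (for compact Hausdorff `X`: `X` is Eberlein compact, by the theorem of Amir
and Lindenstrauss; this is the definition used in the frozen statements). -/
def Eberlein (X : Type) [TopologicalSpace X] : Prop :=
  ∃ (Γ : Type) (f : X → (Γ → ℝ)), Continuous f ∧ Function.Injective f ∧
    (∀ x, Tendsto (f x) cofinite (𝓝 0)) ∧ ∃ M : ℝ, ∀ x γ, |f x γ| ≤ M

/-- Continuous injection into a cube `[0,1]^Γ` with all points of finite support. -/
def FiniteSupports (X : Type) [TopologicalSpace X] : Prop :=
  ∃ (Γ : Type) (f : X → (Γ → ℝ)), Continuous f ∧ Function.Injective f ∧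
    (∀ x, (Function.support (f x)).Finite) ∧ ∀ x γ, f x γ ∈ Icc (0 : ℝ) 1

/-- Continuous injection into a product of real lines with all points of countable support. -/
def Corson (X : Type) [TopologicalSpace X] : Prop :=
  ∃ (Γ : Type) (f : X → (Γ → ℝ)), Continuous f ∧ Function.Injective f ∧
    ∀ x, (Function.support (f x)).Countable

/-- The positive answer to the question (the proposition of the frozen statement `S13827`). -/
def PositiveAnswer : Prop :=
  ∀ (X : Type) [TopologicalSpace X] [CompactSpace X] [T2Space X],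
    (∀ A : Set X, #A ≤ 𝔠 → Eberlein (closure A)) → Eberlein X

/-- A counterexample in a strong form. -/
def StrongCounterexample : Prop :=
  ∃ (X : Type) (_ : TopologicalSpace X) (_ : CompactSpace X) (_ : T2Space X),
    (∀ A : Set X, #A ≤ 𝔠 → Eberlein (closure A) ∧ FiniteSupports (closure A)) ∧
      ¬ Eberlein X ∧ ¬ Corson X

theorem FiniteSupports.eberlein {X : Type} [TopologicalSpace X] (h : FiniteSupports X) :
    Eberlein X := by
  obtain ⟨Γ, f, h1, h2, h3, h4⟩ := h
  refine ⟨Γ, f, h1, h2, fun x => ?_, 1, fun x γ => ?_⟩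
  · refine tendsto_nhds_of_eventually_eq ?_
    have h5 : {γ | ¬ f x γ = 0}.Finite := h3 x
    exact h5
  · rw [abs_of_nonneg (h4 x γ).1]
    exact (h4 x γ).2

theorem Eberlein.corson {X : Type} [TopologicalSpace X] (h : Eberlein X) : Corson X := by
  obtain ⟨Γ, f, h1, h2, h3, -⟩ := h
  refine ⟨Γ, f, h1, h2, fun x => ?_⟩
  have h4 : Function.support (f x) ⊆ ⋃ n : ℕ, {γ | ¬ |f x γ| < 1 / ((n : ℝ) + 1)} := by
    intro γ hγ
    obtain ⟨n, hn⟩ := exists_nat_one_div_lt (abs_pos.2 hγ)
    exact mem_iUnion.2 ⟨n, not_lt.2 hn.le⟩
  refine (countable_iUnion fun n => ?_).mono h4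
  have h5 : ∀ᶠ γ in cofinite, |f x γ| < 1 / ((n : ℝ) + 1) := by
    have h6 := (h3 x).abs
    rw [abs_zero] at h6
    exact h6.eventually_lt_const Nat.one_div_pos_of_nat
  exact (Set.Finite.countable h5)

theorem strong {Θ β : Type} {η : Θ → ℕ → β} {S : Set Θ} (hη : Function.Injective η)
    (hsmall : ∀ B ⊆ S, #B ≤ 𝔠 → SD η B) (hS : ¬ SD η S) : StrongCounterexample := by
  obtain ⟨X, i1, i2, i3, h1, h2⟩ := Pool.Agent.U19.CE.main hη hsmall hS
  exact ⟨X, i1, i2, i3, fun A hA => ⟨FiniteSupports.eberlein (h1 A hA), h1 A hA⟩,
    fun h => h2 h.corson, h2⟩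

/-- **Main theorem.** -/
theorem result :
    (∃ (Θ : Type) (_ : LinearOrder Θ) (η : Θ → ℕ → Θ) (P : Type) (_ : Preorder P),
      Function.Injective η ∧ Nonempty P ∧ ∀ p : P, p ∈ NonReflecting P η) ∧
    (∀ (Θ β : Type) [LinearOrder Θ] (η : Θ → ℕ → β), Function.Injective η →
      (∀ g : Set ℕ → Θ, ∃ γ, ∀ A, g A < γ) →
      (∃ S : Set Θ, (∀ γ, SD η (S ∩ Iio γ)) ∧ ¬ SD η S) → StrongCounterexample) ∧
    (PositiveAnswer → ∀ (β : Type) (S : Set (ℕ → β)),
      (∀ B ⊆ S, #B ≤ 𝔠 → SD (fun x => x) B) → SD (fun x => x) S) := by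
  refine ⟨Pool.Agent.Helper937.Mcs.exists_forcing, ?_, ?_⟩
  · intro Θ β _ η hη hb ⟨S, h1, h2⟩
    exact strong hη (Pool.Agent.U19.CE.small_of_nonReflecting hb h1) h2
  · intro hpos β S h
    by_contra hS
    obtain ⟨X, i1, i2, i3, h1, h2, -⟩ := strong (η := fun x : ℕ → β => x)
      (fun a b hab => hab) h hS
    exact h2 (hpos X fun A hA => (h1 A hA).1)

end Pool.Agent.Results.MP_ba6bfd_gt.ConsistentlyNo
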